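import Mathlib
import Pool.Agent.Work.MP_098314_co.Defs
import Pool.Agent.Work.MP_098314_co.Main

set_option autoImplicit false

open Pool.Agent.Work.MP_098314_co

namespace Pool.Agent.Results.MP_098314_co.NonPiercingFive

/-- There is a pairwise intersecting non-piercing family of regions (in general position) that
cannot be pierced by four points. -/
theorem result : ∃ 𝓕 : Set (Set (ℝ × ℝ)), (∀ F ∈ 𝓕, IsRegion F) ∧ NonPiercing 𝓕 ∧
    PairwiseIntersecting 𝓕 ∧ ¬ CanBePierced 𝓕 4 :=
  ⟨family, fun F hF => (family_region F hF).1, family_nonPiercing, family_pairwiseIntersecting,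
    family_not_pierced⟩

end Pool.Agent.Results.MP_098314_co.NonPiercingFive
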