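import Mathlib
import Pool.Agent.Work.MP_098314_co.Defs
import Pool.Agent.Work.MP_098314_co.Main

set_option autoImplicit false

open Pool.Agent.Work.MP_098314_co

namespace Pool.Agent.Results.MP_098314_co.PseudoDiskFive

/-- There is a pairwise intersecting family of fifteen pseudo-disks that cannot be pierced by four
points. -/
theorem result : ∃ 𝓕 : Set (Set (ℝ × ℝ)), 𝓕.ncard = 15 ∧ PseudoDiskFamily 𝓕 ∧
    PairwiseIntersecting 𝓕 ∧ ¬ CanBePierced 𝓕 4 :=
  ⟨family, family_ncard, family_pseudoDisk, family_pairwiseIntersecting, family_not_pierced⟩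

end Pool.Agent.Results.MP_098314_co.PseudoDiskFive
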